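import Pool.Agent.H81.CC.EqRatio

/-!
For every `k` there are a ratio `2 ^ d` (`d ≥ 1`) and integers `c 0, c 1, …` such that infinitely many primes `p` start a
chain of `k` primes `q 0 = p`, `q (j+1) = 2 ^ d * q j + c j`.
-/

set_option autoImplicit false

namespace Pool.Agent.Results.MP_c183ae_nt.EqualRatioChains

theorem result (k : ℕ) : ∃ d : ℕ, 1 ≤ d ∧ ∃ c : ℕ → ℤ,
    {p : ℕ | ∃ q : ℕ → ℕ, q 0 = p ∧ (∀ j < k, (q j).Prime) ∧
      ∀ j, j + 1 < k → (q (j + 1) : ℤ) = 2 ^ d * (q j : ℤ) + c j}.Infinite :=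
  Pool.Agent.H81.CC.equal_ratio k

end Pool.Agent.Results.MP_c183ae_nt.EqualRatioChains
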