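import Pool.Agent.H16.GP2.Main

/-!
Erdős-Odlyzko for chains: for every `k` there is `s` such that for every set `P` of at least `s` primes a positive
proportion of all `A` have `m`, `r` composed of the primes of `P` such that `A m r^j + e` is prime for all `j < k`.
-/

set_option autoImplicit false

open Finset Filter

namespace Pool.Agent.Results.MP_c183ae_nt.ErdosOdlyzkoChains

lemma prime_sh (σ : Bool) (N : ℕ) (hN : 1 ≤ N) (h : (Pool.Agent.H16.GPS.sh σ N).Prime) :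
    Prime ((N : ℤ) + (if σ then 1 else -1)) := by
  have h1 := Nat.prime_iff_prime_int.mp h
  cases σ
  · have h2 : ((Pool.Agent.H16.GPS.sh false N : ℕ) : ℤ) = (N : ℤ) + (if false = true then 1 else -1) := by
      unfold Pool.Agent.H16.GPS.sh
      simp only [Bool.false_eq_true, if_false]
      push_cast [Nat.cast_sub hN]
      ring
    rw [h2] at h1
    exact h1
  · have h2 : ((Pool.Agent.H16.GPS.sh true N : ℕ) : ℤ) = (N : ℤ) + (if true = true then 1 else -1) := by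
      unfold Pool.Agent.H16.GPS.sh
      simp
    rw [h2] at h1
    exact h1

/-- elementary inequalities for large `x` -/
lemma ev_x (W : ℕ) (hW : 0 < W) (β : ℝ) (hβ : 0 < β) : ∀ᶠ x : ℝ in atTop,
    Real.exp (3 / 2 * Real.log x / 2) ≤ (⌊x / W⌋₊ : ℝ) ∧
    (W : ℝ) * (⌊x / W⌋₊ : ℝ) ≤ Real.exp (3 / 2 * Real.log x - Real.sqrt (3 / 2 * Real.log x)) ∧
    x / (2 * W) ≤ (⌊x / W⌋₊ : ℝ) ∧ (W : ℝ) * (⌊x / W⌋₊ : ℝ) ≤ x ∧
    (3 / 2 * Real.log x) ^ (2 * β) ≤ Real.log x ^ (4 * β) := by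
  have hW0 : (0 : ℝ) < W := by exact_mod_cast hW
  have hlog := Real.tendsto_log_atTop
  filter_upwards [hlog.eventually (eventually_ge_atTop (6 : ℝ)),
    hlog.eventually (eventually_ge_atTop (4 * (Real.log (2 * W)))), eventually_ge_atTop (1 : ℝ),
    eventually_ge_atTop (2 * (W : ℝ))] with x h1 h2 h3 h4
  set L := Real.log x with hL
  have hx0 : 0 < x := by linarith
  have hx : Real.exp L = x := Real.exp_log hx0
  have hxW : 2 ≤ x / W := by rw [le_div_iff₀ hW0]; exact h4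
  have hfl : x / (2 * W) ≤ (⌊x / W⌋₊ : ℝ) := by
    have h5 := Nat.lt_floor_add_one (x / W)
    have h6 : x / (2 * W) = (x / W) / 2 := by field_simp
    rw [h6]; linarith
  have hfl2 : (W : ℝ) * (⌊x / W⌋₊ : ℝ) ≤ x := by
    have h5 := Nat.floor_le (show 0 ≤ x / W by positivity)
    calc (W : ℝ) * (⌊x / W⌋₊ : ℝ) ≤ W * (x / W) := mul_le_mul_of_nonneg_left h5 hW0.le
      _ = x := by field_simp
  refine ⟨?_, ?_, hfl, hfl2, ?_⟩
  · refine le_trans ?_ hfl
    rw [le_div_iff₀ (by positivity)]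
    have h5 : (2 * (W : ℝ)) = Real.exp (Real.log (2 * W)) := (Real.exp_log (by positivity)).symm
    rw [h5, ← Real.exp_add, ← hx]
    apply Real.exp_le_exp.mpr
    linarith
  · refine hfl2.trans ?_
    rw [← hx]
    apply Real.exp_le_exp.mpr
    have h5 : Real.sqrt (3 / 2 * L) ≤ L / 2 := by
      rw [Real.sqrt_le_left (by linarith)]
      nlinarith
    linarith
  · have h5 : 3 / 2 * L ≤ L ^ (2 : ℝ) := by
      rw [Real.rpow_two]; nlinarith
    calc (3 / 2 * L) ^ (2 * β) ≤ (L ^ (2 : ℝ)) ^ (2 * β) :=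
          Real.rpow_le_rpow (by linarith) h5 (by linarith)
      _ = L ^ (4 * β) := by
          rw [← Real.rpow_mul (by linarith)]; congr 1; ring

theorem result (k : ℕ) (ε : ℝ) (hε : 0 < ε) : ∃ s : ℕ, ∀ P : Finset ℕ, (∀ p ∈ P, p.Prime) →
    s ≤ #P → ∃ c : ℝ, 0 < c ∧ ∀ e : ℤ, (e = 1 ∨ e = -1) → ∀ᶠ x : ℝ in atTop,
      c * x ≤ (Nat.card {A : ℕ // 1 ≤ A ∧ (A : ℝ) ≤ x ∧ ∃ m r : ℕ, 1 ≤ m ∧ 2 ≤ r ∧
        (m * r).primeFactors ⊆ P ∧
        (m : ℝ) ≤ Real.exp (Real.log x ^ ε) ∧ (r : ℝ) ≤ Real.exp (Real.log x ^ ε) ∧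
        ∀ j < k, Prime ((A : ℤ) * m * r ^ j + e)} : ℝ) := by
  classical
  set β : ℝ := min ε 1 / 4 with hβ
  have hβ0 : 0 < β := by positivity
  have hβ1 : β ≤ 1 / 4 := by
    rw [hβ]; have := min_le_right ε 1; linarith
  have hβε : 4 * β ≤ ε := by
    rw [hβ]; have := min_le_left ε 1; linarith
  obtain ⟨s, hs⟩ := Pool.Agent.H16.GP2.main2 (max k 2) (le_max_right _ _) β hβ0 hβ1
  refine ⟨s + 1, fun P hP hcard => ?_⟩
  obtain ⟨T, hTP, hT⟩ := Finset.exists_subset_card_eq hcard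
  set gen : Fin (s + 1) → ℕ := fun i => T.orderEmbOfFin hT i with hgen
  have hgT : ∀ i, gen i ∈ P := fun i => hTP (Finset.orderEmbOfFin_mem T hT i)
  obtain ⟨c, hc, W, hW, hmain⟩ := hs gen (T.orderEmbOfFin hT).injective (fun i => hP _ (hgT i))
  have hW0 : (0 : ℝ) < W := by exact_mod_cast hW
  refine ⟨c / (2 * W), by positivity, fun e he => ?_⟩
  obtain ⟨σ, hσ⟩ : ∃ σ : Bool, e = if σ then 1 else -1 := by
    rcases he with h | h
    · exact ⟨true, by simp [h]⟩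
    · exact ⟨false, by simp [h]⟩
  have h32 : Tendsto (fun x : ℝ => 3 / 2 * Real.log x) atTop atTop :=
    Real.tendsto_log_atTop.const_mul_atTop (by norm_num)
  filter_upwards [h32.eventually (hmain σ), ev_x W hW β hβ0, eventually_ge_atTop (1 : ℝ),
    Real.tendsto_log_atTop.eventually (eventually_ge_atTop (1 : ℝ))] with x hx hev hx1 hL1
  obtain ⟨h1, h2, h3, h4, h5⟩ := hev
  have h6 := hx ⌊x / W⌋₊ h1 h2
  have h7 : c / (2 * W) * x ≤ c * (⌊x / W⌋₊ : ℝ) := by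
    calc c / (2 * W) * x = c * (x / (2 * W)) := by ring
      _ ≤ _ := mul_le_mul_of_nonneg_left h3 hc.le
  refine h7.trans (h6.trans ?_)
  have hexp : Real.exp ((3 / 2 * Real.log x) ^ (2 * β)) ≤ Real.exp (Real.log x ^ ε) := by
    apply Real.exp_le_exp.mpr
    exact h5.trans (Real.rpow_le_rpow_of_exponent_le hL1 hβε)
  set Gd : Finset ℕ := (Icc 1 ⌊x / W⌋₊).filter (fun A =>
    Pool.Agent.H16.GP2.Good (max k 2) W σ (Real.exp ((3 / 2 * Real.log x) ^ (2 * β))) gen A) with hGd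
  have hfin : Set.Finite {A : ℕ | 1 ≤ A ∧ (A : ℝ) ≤ x ∧ ∃ m r : ℕ, 1 ≤ m ∧ 2 ≤ r ∧
        (m * r).primeFactors ⊆ P ∧
        (m : ℝ) ≤ Real.exp (Real.log x ^ ε) ∧ (r : ℝ) ≤ Real.exp (Real.log x ^ ε) ∧
        ∀ j < k, Prime ((A : ℤ) * m * r ^ j + e)} := by
    apply (Set.finite_Iic ⌊x⌋₊).subset
    intro A hA
    exact Nat.le_floor hA.2.1
  have hle : #Gd ≤ Set.ncard {A : ℕ | 1 ≤ A ∧ (A : ℝ) ≤ x ∧ ∃ m r : ℕ, 1 ≤ m ∧ 2 ≤ r ∧
        (m * r).primeFactors ⊆ P ∧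
        (m : ℝ) ≤ Real.exp (Real.log x ^ ε) ∧ (r : ℝ) ≤ Real.exp (Real.log x ^ ε) ∧
        ∀ j < k, Prime ((A : ℤ) * m * r ^ j + e)} := by
    rw [← Set.ncard_coe_finset Gd]
    apply Set.ncard_le_ncard_of_injOn (fun A => W * A) _ _ hfin
    · intro A hA
      rw [Finset.mem_coe, hGd, Finset.mem_filter, Finset.mem_Icc] at hA
      obtain ⟨⟨hA1, hA2⟩, m, r, hm, hr, hpr, hmu, hru, hch⟩ := hA
      refine ⟨Nat.mul_pos hW hA1, ?_, m, r, hm, hr, ?_, hmu.trans hexp, hru.trans hexp, ?_⟩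
      · push_cast
        have : (A : ℝ) ≤ (⌊x / W⌋₊ : ℝ) := by exact_mod_cast hA2
        calc (W : ℝ) * A ≤ W * (⌊x / W⌋₊ : ℝ) := mul_le_mul_of_nonneg_left this hW0.le
          _ ≤ x := h4
      · intro p hp
        rw [Nat.mem_primeFactors] at hp
        obtain ⟨i, hi⟩ := hpr p hp.1 hp.2.1
        rw [hi]; exact hgT i
      · intro j hj
        have h8 := hch j (lt_of_lt_of_le hj (le_max_left _ _))
        have h9 := prime_sh σ (W * A * m * r ^ j) (Nat.mul_pos (Nat.mul_pos (Nat.mul_pos hW hA1) hm)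
          (pow_pos (by omega) _)) h8
        rw [hσ]
        push_cast at h9 ⊢
        exact h9
    · intro A _ B _ hAB
      exact Nat.eq_of_mul_eq_mul_left hW hAB
  exact_mod_cast hle

end Pool.Agent.Results.MP_c183ae_nt.ErdosOdlyzkoChains
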