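import Pool.Agent.H16.GPS.Fin3

/-!
Geometric progressions in shifted primes: for every `k`, `ε = ± 1` and every large `x` there is a
multiplier `2 ≤ r ≤ exp ((log log x)^3)` such that for at least `x exp (-(log log x)^6)` integers
`a ≤ x` the numbers `a + ε, a r + ε, ..., a r^(k-1) + ε` are all prime.
-/

set_option autoImplicit false

open Finset Filter

namespace Pool.Agent.Results.MP_c183ae_nt.GeometricChains

lemma prime_sh (σ : Bool) (N : ℕ) (hN : 1 ≤ N) (h : (Pool.Agent.H16.GPS.sh σ N).Prime) :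
    Prime ((N : ℤ) + (if σ then 1 else -1)) := by
  have h1 := Nat.prime_iff_prime_int.mp h
  cases σ
  · have h2 : ((Pool.Agent.H16.GPS.sh false N : ℕ) : ℤ) = (N : ℤ) + (if false = true then 1 else -1) := by
      unfold Pool.Agent.H16.GPS.sh
      simp only [Bool.false_eq_true, if_false]
      push_cast [Nat.cast_sub hN]
      ring
    rw [h2] at h1
    exact h1
  · have h2 : ((Pool.Agent.H16.GPS.sh true N : ℕ) : ℤ) = (N : ℤ) + (if true = true then 1 else -1) := by
      unfold Pool.Agent.H16.GPS.sh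
      simp
    rw [h2] at h1
    exact h1

theorem result (k : ℕ) (ε : ℤ) (hε : ε = 1 ∨ ε = -1) : ∀ᶠ x : ℝ in atTop,
    ∃ r : ℕ, 2 ≤ r ∧ (r : ℝ) ≤ Real.exp (Real.log (Real.log x) ^ 3) ∧
      x * Real.exp (-(Real.log (Real.log x) ^ 6)) ≤
        (#((Icc 1 ⌊x⌋₊).filter (fun a : ℕ => ∀ j < k, Prime ((a : ℤ) * (r : ℤ) ^ j + ε))) : ℝ) := by
  classical
  obtain ⟨σ, hσ⟩ : ∃ σ : Bool, ε = if σ then 1 else -1 := by
    rcases hε with h | h
    · exact ⟨true, by simp [h]⟩
    · exact ⟨false, by simp [h]⟩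
  have h1 := (Real.tendsto_log_atTop).eventually
    (Pool.Agent.H16.GPS.gp_main (max k 2) (le_max_right _ _) σ)
  filter_upwards [h1, eventually_gt_atTop (0 : ℝ)] with x hx hx0
  obtain ⟨r, hr2, hr, hc⟩ := hx
  refine ⟨r, hr2, hr, ?_⟩
  rw [Real.exp_log hx0, sub_eq_add_neg, Real.exp_add, Real.exp_log hx0] at hc
  refine hc.trans ?_
  have h2 : ((Icc 1 ⌊x⌋₊).filter (fun a => ∀ j : ℕ, j < max k 2 →
      (Pool.Agent.H16.GPS.sh σ (a * r ^ j)).Prime)) ⊆
      (Icc 1 ⌊x⌋₊).filter (fun a : ℕ => ∀ j < k, Prime ((a : ℤ) * (r : ℤ) ^ j + ε)) := by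
    intro a ha
    rw [Finset.mem_filter] at ha ⊢
    refine ⟨ha.1, fun j hj => ?_⟩
    have h3 := ha.2 j (lt_of_lt_of_le hj (le_max_left _ _))
    have h4 := prime_sh σ (a * r ^ j) (Nat.mul_pos (Finset.mem_Icc.mp ha.1).1
      (pow_pos (by omega) _)) h3
    rw [hσ]
    push_cast at h4
    exact h4
  exact_mod_cast Finset.card_le_card h2

end Pool.Agent.Results.MP_c183ae_nt.GeometricChains
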