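import Pool.Agent.H2.NC.Main

/-!
For every finite set `M` of positive integers (for instance `1, 2, 4, ..., 2^(k-1)`) there are `N`, `C` and `δ > 0` such
that for all large `x` there is `1 ≤ d ≤ N` for which a proportion `δ` of the integers `m ≤ x` has a `1 ≤ c ≤ (log x)^C`
with `μ^d m - c` prime for all `μ ∈ M`.
-/

set_option autoImplicit false

open Filter

namespace Pool.Agent.Results.MP_c183ae_nt.NarrowChains

theorem result (M : Finset ℕ) (hM : ∀ μ ∈ M, 0 < μ) : ∃ (N C : ℕ) (δ : ℝ), 0 < δ ∧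
    ∀ᶠ x : ℝ in atTop, ∃ d : ℕ, 1 ≤ d ∧ d ≤ N ∧
      δ * x ≤ ({m : ℕ | 1 ≤ m ∧ (m : ℝ) ≤ x ∧ ∃ c : ℕ, 1 ≤ c ∧ (c : ℝ) ≤ (Real.log x) ^ C ∧
        ∀ μ ∈ M, ∃ q : ℕ, q.Prime ∧ q + c = μ ^ d * m}.ncard : ℝ) :=
  Pool.Agent.H2.NC.main_set M hM

end Pool.Agent.Results.MP_c183ae_nt.NarrowChains
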